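import Pool.Agent.Helper14.AY.GoalsA

/-! # AY, SQA: square roots (packet 5083) -/

open Complex Metric Set Filter Topology
open scoped ContDiff ComplexConjugate ComplexOrder Matrix

namespace Pool.Agent.Helper84.AY

open Pool.Agent.Helper95.Lin Pool.Agent.Helper16.Abund Pool.Agent.Helper10.SP Pool.Agent.Helper95.RK
  Pool.Agent.Helper57.HS Pool.Agent.Helper14.AY

/-- second derivative of a composition with a linear map -/
theorem D2_comp {n : ℕ} (L : Cn n →L[ℝ] Cn n) {w : Cn n → ℝ} (hw : ContDiff ℝ 2 w) (y u v : Cn n) :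
    D2 (fun z => w (L z)) y u v = D2 w (L y) (L u) (L v) := by
  have h1 : fderiv ℝ (fun z => w (L z)) = fun z => (fderiv ℝ w (L z)).comp L := by
    funext z
    have := ((hw.differentiable (by norm_num)) (L z)).hasFDerivAt.comp z L.hasFDerivAt
    exact this.fderiv
  have h2 : DifferentiableAt ℝ (fderiv ℝ w) (L y) :=
    (hw.fderiv_right (m := 1) (by norm_num)).differentiable (by norm_num) _
  have h3 : HasFDerivAt (fun z => fderiv ℝ w (L z)) ((D2 w (L y)).comp L) y :=
    HasFDerivAt.comp y (g := fderiv ℝ w) h2.hasFDerivAt L.hasFDerivAt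
  have h4 := (((ContinuousLinearMap.compL ℝ (Cn n) (Cn n) ℝ).flip L).hasFDerivAt
    (x := fderiv ℝ w (L y))).comp y h3
  unfold D2 at *
  rw [h1]
  have h5 : (fun z => (fderiv ℝ w (L z)).comp L) =
    (⇑((ContinuousLinearMap.compL ℝ (Cn n) (Cn n) ℝ).flip L) ∘ fun z => fderiv ℝ w (L z)) := rfl
  rw [h5, h4.fderiv]
  rfl

/-- The Levi form of a symmetric real bilinear form. -/
noncomputable def lf {n : ℕ} (b : Cn n →L[ℝ] Cn n →L[ℝ] ℝ) (u v : Cn n) : ℂ :=
  ((b u v + b (I • u) (I • v) : ℝ) : ℂ) + I * ((b u (I • v) - b (I • u) v : ℝ) : ℂ)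

theorem lf_add {n : ℕ} (b : Cn n →L[ℝ] Cn n →L[ℝ] ℝ) (u u' v : Cn n) :
    lf b (u + u') v = lf b u v + lf b u' v := by
  unfold lf
  simp only [smul_add, map_add, _root_.add_apply]
  push_cast
  ring

theorem b_smul {n : ℕ} (b : Cn n →L[ℝ] Cn n →L[ℝ] ℝ) (c : ℂ) (u v : Cn n) :
    b (c • u) v = c.re * b u v + c.im * b (I • u) v := by
  have h : c • u = c.re • u + c.im • (I • u) := by
    funext i
    simp only [Pi.smul_apply, Pi.add_apply, Complex.real_smul, smul_eq_mul]
    conv_lhs => rw [← Complex.re_add_im c]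
    ring
  rw [h, map_add, map_smul, map_smul]
  simp

theorem lf_smul {n : ℕ} (b : Cn n →L[ℝ] Cn n →L[ℝ] ℝ) (c : ℂ) (u v : Cn n) :
    lf b (c • u) v = c * lf b u v := by
  unfold lf
  have e : I • c • u = (I * c) • u := by rw [smul_smul]
  rw [e, b_smul b c u v, b_smul b c u, b_smul b (I * c) u, b_smul b (I * c) u]
  have e1 : (I * c).re = - c.im := by simp
  have e2 : (I * c).im = c.re := by simp
  rw [e1, e2]
  conv_rhs => rw [← Complex.re_add_im c]
  push_cast
  ring_nf
  simp only [I_sq]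
  ring

theorem lf_conj {n : ℕ} (b : Cn n →L[ℝ] Cn n →L[ℝ] ℝ) (hb : ∀ u v, b u v = b v u) (u v : Cn n) :
    conj (lf b u v) = lf b v u := by
  unfold lf
  rw [map_add, map_mul, conj_I, conj_ofReal, conj_ofReal, hb u v, hb (I • u) (I • v), hb u (I • v),
    hb (I • u) v]
  push_cast
  ring

/-- linear in the first variable -/
noncomputable def lfL {n : ℕ} (b : Cn n →L[ℝ] Cn n →L[ℝ] ℝ) (v : Cn n) : Cn n →ₗ[ℂ] ℂ where
  toFun u := lf b u v
  map_add' u u' := lf_add b u u' v
  map_smul' c u := lf_smul b c u v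

theorem lf_left {n : ℕ} (b : Cn n →L[ℝ] Cn n →L[ℝ] ℝ) (u v : Cn n) :
    lf b u v = ∑ p, u p * lf b (Pi.single p 1) v := by
  have h : u = ∑ p, u p • (Pi.single p (1 : ℂ) : Cn n) := by
    funext i
    simp [Finset.sum_apply, Pi.single_apply]
  conv_lhs => rw [h]
  change lfL b v _ = _
  rw [map_sum]
  refine Finset.sum_congr rfl fun p _ => ?_
  rw [map_smul]
  rfl

theorem lf_expand {n : ℕ} (b : Cn n →L[ℝ] Cn n →L[ℝ] ℝ) (hb : ∀ u v, b u v = b v u) (u v : Cn n) :
    lf b u v = ∑ p, ∑ q, u p * conj (v q) * lf b (Pi.single p 1) (Pi.single q 1) := by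
  rw [lf_left]
  refine Finset.sum_congr rfl fun p _ => ?_
  rw [← lf_conj b hb, lf_left b v, map_sum, Finset.mul_sum]
  refine Finset.sum_congr rfl fun q _ => ?_
  rw [map_mul, lf_conj b hb, mul_assoc]

theorem lf_self {n : ℕ} (b : Cn n →L[ℝ] Cn n →L[ℝ] ℝ) (hb : ∀ u v, b u v = b v u) (u : Cn n) :
    lf b u u = ((b u u + b (I • u) (I • u) : ℝ) : ℂ) := by
  unfold lf
  rw [hb (I • u) u]
  simp

/-- The trace identity. -/
theorem trace_lf {n : ℕ} (b : Cn n →L[ℝ] Cn n →L[ℝ] ℝ) (hb : ∀ u v, b u v = b v u)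
    (A L : Matrix (Fin n) (Fin n) ℂ) (hL : L * Lᴴ = Aᵀ) :
    Matrix.trace (A * Matrix.of fun p q => lf b (Pi.single p 1) (Pi.single q 1)) =
      ∑ j, ((b (L.mulVec (Pi.single j 1)) (L.mulVec (Pi.single j 1)) +
        b (L.mulVec (Pi.single j I)) (L.mulVec (Pi.single j I)) : ℝ) : ℂ) := by
  have e1 : ∀ j, L.mulVec (Pi.single j I : Cn n) = I • L.mulVec (Pi.single j 1 : Cn n) := by
    intro j
    rw [← Matrix.mulVec_smul, ← Pi.single_smul]
    simp
  have e2 : ∀ j p, L.mulVec (Pi.single j 1 : Cn n) p = L p j := by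
    intro j p
    rw [Matrix.mulVec_single_one]
    rfl
  calc Matrix.trace (A * Matrix.of fun p q => lf b (Pi.single p 1) (Pi.single q 1))
      = ∑ q, ∑ p, Aᵀ p q * lf b (Pi.single p 1) (Pi.single q 1) := by
        simp [Matrix.trace, Matrix.mul_apply]
    _ = ∑ q, ∑ p, ∑ j, L p j * conj (L q j) * lf b (Pi.single p 1) (Pi.single q 1) := by
        refine Finset.sum_congr rfl fun q _ => Finset.sum_congr rfl fun p _ => ?_
        rw [← hL, Matrix.mul_apply, Finset.sum_mul]
        refine Finset.sum_congr rfl fun j _ => ?_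
        rw [Matrix.conjTranspose_apply]
        rfl
    _ = ∑ j, ∑ p, ∑ q, L p j * conj (L q j) * lf b (Pi.single p 1) (Pi.single q 1) := by
        rw [Finset.sum_comm]
        rw [Finset.sum_comm' (s := Finset.univ) (t := fun _ => Finset.univ) (t' := Finset.univ)
          (s' := fun _ => Finset.univ) (by simp)]
        rw [Finset.sum_comm]
        have : ∀ p, (∑ q, ∑ j, L p j * conj (L q j) * lf b (Pi.single p 1) (Pi.single q 1)) =
            ∑ j, ∑ q, L p j * conj (L q j) * lf b (Pi.single p 1) (Pi.single q 1) := fun p =>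
          Finset.sum_comm
        simp only [this]
        rw [Finset.sum_comm]
    _ = _ := by
        refine Finset.sum_congr rfl fun j _ => ?_
        rw [e1, ← lf_self b hb, lf_expand b hb]
        refine Finset.sum_congr rfl fun p _ => Finset.sum_congr rfl fun q _ => ?_
        rw [e2, e2]

open scoped Matrix.Norms.L2Operator MatrixOrder in
theorem exists_factor {n : ℕ} {A : Matrix (Fin n) (Fin n) ℂ} (hA : A.PosSemidef) :
    ∃ B, A = Bᴴ * B :=
  CStarAlgebra.nonneg_iff_eq_star_mul_self.mp hA.nonneg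

/-- multiplication by a matrix as a real continuous linear map -/
noncomputable def mvL {n : ℕ} (L : Matrix (Fin n) (Fin n) ℂ) : Cn n →L[ℝ] Cn n :=
  LinearMap.toContinuousLinearMap ((Matrix.toLin' L).restrictScalars ℝ)

theorem mvL_apply {n : ℕ} (L : Matrix (Fin n) (Fin n) ℂ) (u : Cn n) : mvL L u = L.mulVec u := rfl

theorem mvL_norm {n : ℕ} (L : Matrix (Fin n) (Fin n) ℂ) (c : ℝ) (hc : 0 ≤ c)
    (h : ∀ i j, ‖L i j‖ ≤ c) : ‖mvL L‖ ≤ n * c := by
  refine ContinuousLinearMap.opNorm_le_bound _ (by positivity) fun u => ?_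
  rw [mvL_apply, pi_norm_le_iff_of_nonneg (by positivity)]
  intro i
  calc ‖L.mulVec u i‖ = ‖∑ j, L i j * u j‖ := rfl
    _ ≤ ∑ j, ‖L i j * u j‖ := norm_sum_le _ _
    _ ≤ ∑ _j : Fin n, c * ‖u‖ := by
        refine Finset.sum_le_sum fun j _ => ?_
        rw [norm_mul]
        exact mul_le_mul (h i j) (norm_le_pi_norm u j) (norm_nonneg _) hc
    _ = n * c * ‖u‖ := by simp [mul_assoc]

theorem entry_le {n : ℕ} (M : Matrix (Fin n) (Fin n) ℂ) (b : ℝ)
    (h : ∀ i, ((M * Mᴴ) i i).re ≤ b) (i j : Fin n) : ‖M i j‖ ≤ 1 + b := by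
  have h1 : ((M * Mᴴ) i i).re = ∑ k, ‖M i k‖ ^ 2 := by
    rw [Matrix.mul_apply, Complex.re_sum]
    refine Finset.sum_congr rfl fun k _ => ?_
    rw [Matrix.conjTranspose_apply]
    change (M i k * conj (M i k)).re = _
    rw [Complex.mul_conj, Complex.normSq_eq_norm_sq]
    exact Complex.ofReal_re _
  have h2 : ‖M i j‖ ^ 2 ≤ b := by
    refine le_trans ?_ (h i)
    rw [h1]
    exact Finset.single_le_sum (f := fun k => ‖M i k‖ ^ 2) (fun k _ => by positivity)
      (Finset.mem_univ j)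
  nlinarith [norm_nonneg (M i j)]

theorem sqa (hL : S_LMD) : S_SQA := by
  intro n lam hlam
  refine ⟨n * (1 + lam⁻¹) + 1, by positivity, ?_⟩
  intro A h1 h2
  have hA : A.PosDef := by
    have e : A = (lam : ℂ) • 1 + (A - (lam : ℂ) • 1) := by abel
    rw [e]
    refine Matrix.PosDef.add_posSemidef ?_ h1
    exact Matrix.PosDef.one.smul (by exact_mod_cast hlam)
  obtain ⟨B, hB⟩ := exists_factor hA.transpose.posSemidef
  set L := Bᴴ with hLdef
  have hLL : L * Lᴴ = Aᵀ := by rw [hB, hLdef, Matrix.conjTranspose_conjTranspose]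
  have hdet : IsUnit L.det := by
    have h3 : IsUnit (L * Lᴴ) := by rw [hLL]; exact hA.transpose.isUnit
    rw [Matrix.isUnit_iff_isUnit_det, Matrix.det_mul] at h3
    exact isUnit_of_mul_isUnit_left h3
  set N := L⁻¹ with hN
  have hNL : N * L = 1 := Matrix.nonsing_inv_mul L hdet
  have hLN : L * N = 1 := Matrix.mul_nonsing_inv L hdet
  have bL : ∀ i j, ‖L i j‖ ≤ 1 + lam⁻¹ := by
    refine entry_le L lam⁻¹ fun i => ?_
    rw [hLL, Matrix.transpose_apply]
    have h3 := (Complex.nonneg_iff.1 (h2.diag_nonneg (i := i))).1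
    simpa using h3
  have bN : ∀ i j, ‖N i j‖ ≤ 1 + lam⁻¹ := by
    refine entry_le N lam⁻¹ fun i => ?_
    have h3 : (Aᵀ - (lam : ℂ) • 1).PosSemidef := by
      have := h1.transpose
      rwa [Matrix.transpose_sub, Matrix.transpose_smul, Matrix.transpose_one] at this
    have h4 := (h3.mul_mul_conjTranspose_same N).diag_nonneg (i := i)
    have h5 : N * (Aᵀ - (lam : ℂ) • 1) * Nᴴ = 1 - (lam : ℂ) • (N * Nᴴ) := by
      rw [Matrix.mul_sub, Matrix.sub_mul, ← hLL]
      congr 1
      · calc N * (L * Lᴴ) * Nᴴ = (N * L) * (N * L)ᴴ := by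
              rw [Matrix.conjTranspose_mul]
              simp only [Matrix.mul_assoc]
          _ = 1 := by rw [hNL]; simp
      · simp
    rw [h5] at h4
    have h6 := (Complex.nonneg_iff.1 h4).1
    simp only [Matrix.sub_apply, Matrix.one_apply_eq, Matrix.smul_apply, smul_eq_mul, sub_re,
      one_re, re_ofReal_mul] at h6
    rw [inv_eq_one_div, le_div_iff₀ hlam]
    linarith
  have li : Function.LeftInverse (mvL N) (mvL L) := fun u => by
    rw [mvL_apply, mvL_apply, Matrix.mulVec_mulVec, hNL, Matrix.one_mulVec]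
  have ri : Function.RightInverse (mvL N) (mvL L) := fun u => by
    rw [mvL_apply, mvL_apply, Matrix.mulVec_mulVec, hLN, Matrix.one_mulVec]
  refine ⟨ContinuousLinearEquiv.equivOfInverse (mvL L) (mvL N) li ri, ?_, ?_, ?_⟩
  · exact (mvL_norm L (1 + lam⁻¹) (by positivity) bL).trans (by linarith)
  · exact (mvL_norm N (1 + lam⁻¹) (by positivity) bN).trans (by linarith)
  · intro w hw y
    have e0 : ∀ z, ContinuousLinearEquiv.equivOfInverse (mvL L) (mvL N) li ri z = mvL L z :=
      fun z => rfl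
    simp only [e0]
    have e1 : ∀ u v, D2 (fun z => w (mvL L z)) y u v = D2 w (mvL L y) (mvL L u) (mvL L v) :=
      fun u v => D2_comp (mvL L) hw y u v
    refine ⟨e1, ?_⟩
    have hwL : ContDiff ℝ 2 (fun z => w (mvL L z)) := hw.comp (mvL L).contDiff
    obtain ⟨s1, -, -, -⟩ := hL (fun z => w (mvL L z)) y hwL.contDiffAt
    obtain ⟨s2, s3, -, -⟩ := hL w (mvL L y) hw.contDiffAt
    have hb : ∀ u v, D2 w (mvL L y) u v = D2 w (mvL L y) v u := fun u v => (s2 u v).2
    have e2 : LM w (mvL L y) = Matrix.of fun p q =>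
        lf (D2 w (mvL L y)) (Pi.single p 1) (Pi.single q 1) := by
      ext p q
      rw [s3 p q, Matrix.of_apply]
      unfold lf
      have f : ∀ p : Fin n, (I • (Pi.single p (1 : ℂ)) : Cn n) = Pi.single p I := by
        intro p
        rw [← Pi.single_smul]
        simp
      rw [f, f]
    rw [e2, trace_lf _ hb A L hLL]
    unfold Lap
    have e3 : ∀ a : Fin n × Bool, hess (fun z => w (mvL L z)) y (rb a) (rb a) =
        D2 w (mvL L y) (L.mulVec (rb a)) (L.mulVec (rb a)) := by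
      intro a
      rw [← (s1 _ _).1, e1]
      rfl
    rw [Finset.sum_congr rfl fun a _ => e3 a, Fintype.sum_prod_type]
    push_cast
    refine Finset.sum_congr rfl fun j _ => ?_
    rw [Fintype.sum_bool, add_comm]
    simp [rb]

end Pool.Agent.Helper84.AY
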